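import Pool.Agent.MP_5d9b3c_ag.H72.Iface

/-! From the Weyl algebra to twisted forms, and an embedding of the p-adic numbers. -/

set_option autoImplicit false

namespace Pool.Agent.MP_5d9b3c_ag.H50

open MvPolynomial Filter Pool.Agent.MP_ee8c61_ag Pool.Agent.MP_5d9b3c_ag.H72
open H4 (R2 Gn H0 PF PolV)

variable {r : ℕ}

/-- the weights `s!` times the coefficients of `W` -/
noncomputable def wt (W : MvPolynomial (Fin r) ℂ) (s : Fin r →₀ ℕ) : ℂ :=
  coeff s W * ∏ i, ((s i).factorial : ℂ)

/-- the pairing on iterated polynomials -/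
noncomputable def lam0 (W : MvPolynomial (Fin r) ℂ) : MvPolynomial (Fin r) R2 →ₗ[R2] R2 :=
  (basisMonomials (Fin r) R2).constr R2 fun s => C (wt W s)

lemma lam0_mono (W : MvPolynomial (Fin r) ℂ) (s : Fin r →₀ ℕ) (a : R2) :
    lam0 W (monomial s a) = a * C (wt W s) := by
  have : monomial s a = a • basisMonomials (Fin r) R2 s := by simp [smul_monomial]
  rw [this, map_smul, lam0, Module.Basis.constr_basis, smul_eq_mul]

lemma lam0_X (W : MvPolynomial (Fin r) ℂ) (i : Fin r) (K : MvPolynomial (Fin r) R2) :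
    lam0 W (K * X i) = lam0 (pderiv i W) K := by
  induction K using MvPolynomial.induction_on' with
  | add p q hp hq => rw [add_mul, map_add, map_add, hp, hq]
  | monomial s a =>
    rw [← pow_one (X i), ← monomial_add_single, lam0_mono, lam0_mono, wt, wt, coeff_pderiv,
      mul_assoc]
    congr 3
    rw [← Finset.mul_prod_erase _ _ (Finset.mem_univ i),
      ← Finset.mul_prod_erase _ _ (Finset.mem_univ i), ← mul_assoc]
    congr 1
    · simp [Nat.factorial_succ]
    · refine Finset.prod_congr rfl fun j hj => ?_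
      simp [Finsupp.single_eq_of_ne (Finset.ne_of_mem_erase hj)]

lemma lam0_add (W W' : MvPolynomial (Fin r) ℂ) (K : MvPolynomial (Fin r) R2) :
    lam0 (W + W') K = lam0 W K + lam0 W' K := by
  induction K using MvPolynomial.induction_on' with
  | add p q hp hq => simp only [map_add, hp, hq]; ring
  | monomial s a => simp only [lam0_mono, wt, coeff_add, add_mul, map_add, mul_add]

lemma lam0_zero (K : MvPolynomial (Fin r) R2) : lam0 0 K = 0 := by
  simpa using lam0_add 0 0 K

/-- `W(∂ / ∂ y) H` at `y = 0` -/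
noncomputable def lam (W : MvPolynomial (Fin r) ℂ) (H : MvPolynomial (Fin r ⊕ Fin 2) ℂ) : R2 :=
  lam0 W (sumAlgEquiv ℂ (Fin r) (Fin 2) H)

variable (W W' : MvPolynomial (Fin r) ℂ) (H H' : MvPolynomial (Fin r ⊕ Fin 2) ℂ)

lemma lam_add : lam W (H + H') = lam W H + lam W H' := by simp only [lam, map_add]

lemma lam_add' : lam (W + W') H = lam W H + lam W' H := lam0_add _ _ _

lemma lam_zero' : lam 0 H = 0 := lam0_zero _

lemma lam_sum {ι : Type} (s : Finset ι) (z : ι → MvPolynomial (Fin r ⊕ Fin 2) ℂ) :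
    lam W (∑ i ∈ s, z i) = ∑ i ∈ s, lam W (z i) := by simp only [lam, map_sum]

lemma lam_sum' {ι : Type} (s : Finset ι) (z : ι → MvPolynomial (Fin r) ℂ) :
    lam (∑ i ∈ s, z i) H = ∑ i ∈ s, lam (z i) H :=
  map_sum (AddMonoidHom.mk' (fun W => lam W H) fun W W' => lam_add' W W' H) z s

lemma lam_y (i : Fin r) : lam W (H * X (.inl i)) = lam (pderiv i W) H := by
  simp only [lam, map_mul, sumAlgEquiv_X_inl, lam0_X]

lemma lam_ren (g : R2) : lam W (rename Sum.inr g * H) = g * lam W H := by
  have : sumAlgEquiv ℂ (Fin r) (Fin 2) (rename Sum.inr g) = C g :=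
    AlgHom.congr_fun (sumAlgEquiv_comp_rename_inr ℂ (Fin r) (Fin 2)) g
  rw [lam, map_mul, this, C_mul', map_smul, smul_eq_mul, lam]

lemma lam_x (j : Fin 2) : lam W (H * X (.inr j)) = X j * lam W H := by
  rw [← lam_ren, rename_X, mul_comm]

lemma lam_smul (c : ℂ) : lam W (c • H) = C c * lam W H := by
  rw [← lam_ren, rename_C, C_mul']

lemma lam_C (a : ℂ) : lam W (C a) = C (a * coeff 0 W) := by
  rw [lam, sumAlgEquiv_C_inl, C_apply, lam0_mono, wt, ← C_mul]
  simp

lemma lam_dy (i : Fin r) : lam W (pderiv (.inl i) H) = lam (X i * W) H := by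
  induction H using MvPolynomial.induction_on generalizing W with
  | C a => rw [pderiv_C, ← C_0, lam_C, lam_C]; simp [coeff_X_mul']
  | add p q hp hq => rw [map_add, lam_add, lam_add, hp, hq]
  | mul_X p k hp =>
    rw [pderiv_mul, lam_add]
    rcases k with k | k
    · rw [lam_y, lam_y, hp, pderiv_mul, lam_add', add_comm]
      congr 1
      by_cases h : i = k
      · subst h; simp
      · rw [pderiv_X_of_ne (by simpa using Ne.symm h), pderiv_X_of_ne h, zero_mul, mul_zero,
          lam_zero', ← C_0, lam_C, zero_mul, C_0]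
    · rw [lam_x, lam_x, hp, pderiv_X_of_ne (by simp), mul_zero, ← C_0, lam_C, zero_mul, C_0,
        add_zero]

lemma lam_dx (j : Fin 2) : lam W (pderiv (.inr j) H) = pderiv j (lam W H) := by
  induction H using MvPolynomial.induction_on generalizing W with
  | C a => rw [pderiv_C, ← C_0, lam_C, lam_C, pderiv_C, zero_mul, C_0]
  | add p q hp hq => rw [map_add, lam_add, lam_add, hp, hq, map_add]
  | mul_X p k hp =>
    rw [pderiv_mul, lam_add]
    rcases k with k | k
    · rw [lam_y, lam_y, hp, pderiv_X_of_ne (by simp), mul_zero, ← C_0, lam_C, zero_mul, C_0,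
        add_zero]
    · rw [lam_x, lam_x, hp, pderiv_mul, add_comm]
      congr 1
      by_cases h : k = j
      · subst h; simp
      · rw [pderiv_X_of_ne (by simpa using h), pderiv_X_of_ne h, zero_mul, mul_zero,
          ← C_0, lam_C, zero_mul, C_0]

lemma lam_lin (f : Fin r → R2) (N : ℕ) {m : ℕ} (hW : W.IsHomogeneous m) :
    lam W (lin f ^ N) = if m = N then C (N.factorial : ℂ) * aeval f W else 0 := by
  induction N generalizing W m with
  | zero =>
    rw [pow_zero, ← C_1, lam_C, one_mul]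
    split_ifs with h
    · subst h
      rw [← totalDegree_zero_iff_isHomogeneous, totalDegree_eq_zero_iff_eq_C] at hW
      rw [hW]; simp
    · rw [hW.coeff_eq_zero (by simpa using Ne.symm h), C_0]
  | succ N ih =>
    have e : lam W (lin f ^ (N + 1)) = ∑ i, f i * lam (pderiv i W) (lin f ^ N) := by
      rw [pow_succ]
      nth_rewrite 2 [lin]
      rw [Finset.mul_sum, lam_sum]
      refine Finset.sum_congr rfl fun i _ => ?_
      rw [← lam_y, ← lam_ren]
      congr 1; ring
    rw [e]
    obtain _ | m := m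
    · rw [← totalDegree_zero_iff_isHomogeneous, totalDegree_eq_zero_iff_eq_C] at hW
      rw [hW]; simp [lam_zero']
    simp only [fun i => ih (pderiv i W) (hW.pderiv (i := i)), Nat.add_sub_cancel,
      Nat.add_right_cancel_iff]
    split_ifs with h
    · subst h
      have := congrArg (aeval f) hW.sum_X_mul_pderiv
      simp only [map_sum, map_mul, aeval_X, nsmul_eq_mul, map_natCast] at this
      simp only [mul_left_comm (f _), ← Finset.mul_sum, this, Nat.factorial_succ, Nat.cast_mul,
        map_mul, map_natCast]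
      ring
    · simp

lemma weyl_ind {σ : Type} {Cl : (ℕ → MvPolynomial σ ℂ) → Prop}
    (add : ∀ A B, Cl A → Cl B → Cl fun τ => A τ + B τ)
    (smul : ∀ (c : ℂ) A, Cl A → Cl fun τ => c • A τ)
    (mul : ∀ i A, Cl A → Cl fun τ => A τ * X i) (der : ∀ i A, Cl A → Cl fun τ => pderiv i (A τ))
    {P : Module.End ℂ (MvPolynomial σ ℂ)} (hP : P ∈ weyl σ) :
    ∀ A, Cl A → Cl fun τ => P (A τ) := by
  induction hP using Algebra.adjoin_induction with
  | mem x hx =>
    rcases hx with ⟨i, rfl⟩ | ⟨i, rfl⟩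
    · intro A hA; simpa [mul_comm] using mul i A hA
    · exact der i
  | algebraMap c => exact smul c
  | add x y _ _ hx hy => exact fun A hA => add _ _ (hx A hA) (hy A hA)
  | mul x y _ _ hx hy => exact fun A hA => hx _ (hy A hA)

lemma polv_pow (t : ℂ) (n k : ℕ) (p : Polynomial ℂ) :
    ∃ w : R2, PolV t (fun τ : ℕ => C (p.eval (τ : ℂ) * ((n * τ : ℕ) : ℂ) ^ k)) w :=
  ⟨_, (PolV.poly (S := R2) (t := t) (p * (Polynomial.C (n : ℂ) * Polynomial.X) ^ k)).congr
    (Eventually.of_forall fun τ => by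
      simp only [Polynomial.eval_mul, Polynomial.eval_pow, Polynomial.eval_C, Polynomial.eval_X,
        algebraMap_eq, Nat.cast_mul])⟩

lemma sol1 (f : Fin r → R2) (b : Polynomial ℂ) (hb : IsBFunction (lin f) b) : HasSol f b := by
  intro n G t hG _
  obtain ⟨d, P, hP, h⟩ := hb
  let Cl : (ℕ → MvPolynomial (Fin r ⊕ Fin 2) ℂ) → Prop := fun A => ∀ W, PF t G W →
    Gn t (aeval f G) (Ideal.span (Set.range f)) n 1
      fun τ => C (((n * τ + 1).factorial : ℂ)⁻¹) * lam (W τ) (A τ)
  have base : Cl fun τ => lin f ^ (n * τ + 1) := by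
    rintro W ⟨e, v, g, hg, hW⟩
    refine Gn.base _ ⟨e, _, _, hg.map ((aeval f).toLinearMap ∘ₗ homogeneousComponent (n * e + 1)),
      ?_⟩
    filter_upwards [hW, eventually_ge_atTop e] with τ h1 h2
    refine ⟨H4.aeval_mem_pow (homogeneousComponent_isHomogeneous _ _), ?_⟩
    obtain ⟨m, rfl⟩ := Nat.exists_eq_add_of_le h2
    have h0 : ((n * (e + m) + 1).factorial : ℂ) ≠ 0 := by exact_mod_cast Nat.factorial_ne_zero _
    rw [h1, Nat.add_sub_cancel_left]
    nth_rewrite 1 [← sum_homogeneousComponent (g (e + m))]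
    rw [Finset.mul_sum, lam_sum', Finset.sum_eq_single (n * e + 1)]
    · rw [lam_lin _ _ _ ((hG.pow m).mul (homogeneousComponent_isHomogeneous _ _)),
        if_pos (by ring), ← mul_assoc, ← C_mul, inv_mul_cancel₀ h0]
      simp
    · intro k _ hk
      rw [lam_lin _ _ _ ((hG.pow m).mul (homogeneousComponent_isHomogeneous _ _)), if_neg]
      intro h3
      rw [mul_add] at h3
      omega
    · intro h3
      rw [homogeneousComponent_eq_zero _ _ (by simpa using h3), mul_zero, lam_zero']
  have hc : ∀ k, Cl fun τ => P k (lin f ^ (n * τ + 1)) := fun k => by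
    refine weyl_ind (Cl := Cl) ?_ ?_ ?_ ?_ (hP k) _ base
    · intro A B hA hB W hW
      simpa only [lam_add, mul_add] using Gn.add _ _ (hA W hW) (hB W hW)
    · intro c A hA W hW
      simpa only [lam_smul, mul_left_comm (C c)] using (hA W hW).cmul (C c)
    · rintro (i | i) A hA W hW
      · simpa only [lam_y] using hA _ (hW.deriv (pderiv i))
      · simpa only [lam_x, mul_left_comm (X i)] using (hA W hW).cmul (X i)
    · rintro (i | i) A hA W hW
      · simpa only [lam_dy] using hA _ (hW.cmul (X i))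
      · simpa only [lam_dx, pderiv_C_mul] using Gn.der i _ (hA W hW)
  refine H4.Sol.of_gn (H4.aeval_mem_pow hG) (Gn.congr _ _ (Gn.sum (Finset.range d) fun k _ =>
    Gn.pmul _ _ _ (polv_pow t n k (Polynomial.C (n : ℂ) * Polynomial.X + 1)).choose_spec
      (hc k _ ⟨0, 1, H4.PV.pow G⟩)) (Eventually.of_forall fun τ => ?_))
  have h1 := congrArg (lam (G ^ τ)) (h (n * τ))
  rw [lam_sum, lam_smul, lam_lin _ _ _ (hG.pow τ), if_pos rfl, map_pow] at h1
  have h0 : ((n * τ + 1).factorial : ℂ) ≠ 0 := by exact_mod_cast Nat.factorial_ne_zero _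
  have h2 : (C (((n : ℂ) * τ + 1) * ((n * τ + 1).factorial : ℂ)⁻¹) : R2) *
      C ((n * τ).factorial : ℂ) = 1 := by
    rw [← C_mul, mul_right_comm, ← C_1]
    congr 1
    rw [mul_inv_eq_one₀ h0, Nat.factorial_succ]
    push_cast; ring
  simp only [lam_smul] at h1
  have h3 : ∀ k, (C (Polynomial.eval (τ : ℂ) (Polynomial.C (n : ℂ) * Polynomial.X + 1) *
      ((n * τ : ℕ) : ℂ) ^ k) : R2) * (C (((n * τ + 1).factorial : ℂ)⁻¹) *
        lam (G ^ τ) (P k (lin f ^ (n * τ + 1)))) =
      C (((n : ℂ) * τ + 1) * ((n * τ + 1).factorial : ℂ)⁻¹) *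
        (C (((n * τ : ℕ) : ℂ) ^ k) * lam (G ^ τ) (P k (lin f ^ (n * τ + 1)))) := by
    intro k
    simp only [Polynomial.eval_add, Polynomial.eval_mul, Polynomial.eval_C, Polynomial.eval_X,
      Polynomial.eval_one, C_mul]
    ring
  simp only [h3, ← Finset.mul_sum, h1]
  push_cast
  linear_combination (-(C (b.eval ((n : ℂ) * τ)) * aeval f G ^ τ)) * h2

lemma sol2 (g : R2) (b : Polynomial ℂ) (hb : IsBFunction g b) : HasSol ![g] b := by
  intro n G t hG _
  obtain ⟨d, P, hP, h⟩ := hb
  obtain ⟨c, hc⟩ : ∃ c, aeval ![g] G = C c * g ^ n := by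
    refine ⟨coeff (Finsupp.single 0 n) G, ?_⟩
    have : G = C (coeff (Finsupp.single 0 n) G) * X 0 ^ n := by
      ext s
      rw [C_mul_X_pow_eq_monomial, coeff_monomial]
      split_ifs with h
      · rw [h]
      · refine hG.coeff_eq_zero fun e => h ?_
        ext
        simpa [Finsupp.degree_eq_sum] using e.symm
    conv_lhs => rw [this]
    simp
  have base : Gn t (aeval ![g] G) (Ideal.span (Set.range ![g])) n 1
      fun τ => (c ^ τ) • g ^ (n * τ + 1) := by
    refine Gn.base _ ⟨0, fun _ => g, g, PolV.const g, Eventually.of_forall fun τ => ⟨?_, ?_⟩⟩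
    · rw [mul_zero, zero_add, pow_one]
      exact Ideal.subset_span ⟨0, rfl⟩
    · simp only
      rw [hc, mul_pow, ← pow_mul, ← C_pow, Nat.sub_zero, smul_eq_C_mul, pow_succ, mul_assoc]
  have hk : ∀ k, Gn t (aeval ![g] G) (Ideal.span (Set.range ![g])) n 1
      fun τ => P k ((c ^ τ) • g ^ (n * τ + 1)) := fun k => by
    refine weyl_ind (Gn.add) ?_ ?_ (Gn.der) (hP k) _ base
    · intro c A hA
      simpa only [smul_eq_C_mul] using hA.cmul (C c)
    · intro i A hA
      simpa only [mul_comm (X i)] using hA.cmul (X i)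
  refine H4.Sol.of_gn (H4.aeval_mem_pow hG) (Gn.congr _ _ (Gn.sum (Finset.range d) fun k _ =>
    Gn.pmul _ _ _ (polv_pow t n k 1).choose_spec (hk k)) (Eventually.of_forall fun τ => ?_))
  have h1 := congrArg (fun z => C (c ^ τ) * z) (h (n * τ))
  simp only [smul_eq_C_mul, Finset.mul_sum] at h1
  simp only [map_smul]
  simp only [smul_eq_C_mul, Polynomial.eval_one, one_mul, mul_left_comm _ (C (c ^ τ)), h1]
  rw [hc, mul_pow, ← pow_mul, ← C_pow]
  push_cast
  ring

theorem solS : SStmt := ⟨fun _ => sol1, sol2⟩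

open Cardinal in
theorem embE : EStmt := by
  intro p _
  let M := MvPolynomial (Fin 3 ⊕ ℂ) ℚ_[p]
  let L := AlgebraicClosure (FractionRing M)
  have inj : Function.Injective ((algebraMap (FractionRing M) L).comp (algebraMap M _)) :=
    (algebraMap (FractionRing M) L).injective.comp (IsFractionRing.injective M _)
  have h1 : #ℚ_[p] ≤ 𝔠 := mk_quotient_le.trans ((mk_subtype_le _).trans (by simp))
  have h2 : #M ≤ 𝔠 := MvPolynomial.cardinalMk_le_max.trans
    (max_le (max_le h1 (by simp [Cardinal.mk_complex])) aleph0_le_continuum)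
  have h3 : #L = 𝔠 := le_antisymm
    ((Algebra.IsAlgebraic.cardinalMk_le_max (FractionRing M) L).trans
      (max_le (by rwa [Cardinal.mk_fractionRing]) aleph0_le_continuum))
    (Cardinal.mk_complex ▸ mk_le_of_injective
      (inj.comp ((X_injective (R := ℚ_[p])).comp Sum.inr_injective)))
  obtain ⟨e⟩ := IsAlgClosed.ringEquiv_of_equiv_of_charZero (K := L) (L := ℂ)
    (h3 ▸ aleph0_lt_continuum) (Cardinal.eq.1 (h3.trans Cardinal.mk_complex.symm))
  let φ : M →+* ℂ := e.toRingHom.comp ((algebraMap (FractionRing M) L).comp (algebraMap M _))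
  refine ⟨φ.comp C, fun j => φ (X (.inl j)), ?_⟩
  let _ : Algebra ℚ_[p] ℂ := (φ.comp C).toAlgebra
  exact ((algebraicIndependent_X (Fin 3 ⊕ ℂ) ℚ_[p]).comp _ Sum.inl_injective).map'
    (f := { φ with commutes' := fun _ => rfl }) (e.injective.comp inj)

end Pool.Agent.MP_5d9b3c_ag.H50
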